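import Mathlib
import Pool.Agent.Helper827.B17
import Pool.Agent.Y436.TS.Asp

/-!
# The three-space theorem for smooth bump functions, as an equivalence

For a closed subspace `Y` of a real Banach space `X` the following are equivalent: `X` admits a
bump function that is differentiable at each point; `Y` and `X ⧸ Y` do; `X` admits a Lipschitz
`C^1`-smooth bump function; `Y` and `X ⧸ Y` do; `X` is an Asplund space; `Y` and `X ⧸ Y` are; all
continuous maps of `X` into Banach spaces are uniform limits of `C^1`-smooth maps; `Y` and `X ⧸ Y`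
have this property.
-/

set_option autoImplicit false

namespace Pool.Agent.Results.MP_151be3_an.SmoothnessEquivalences

open Pool.Agent.Helper827.B

/-- `X` admits a bump function (not zero, with bounded support) that is Fréchet differentiable at
each point of `X`. -/
def FBump (X : Type) [NormedAddCommGroup X] [NormedSpace ℝ X] : Prop :=
  ∃ b : X → ℝ, Differentiable ℝ b ∧ (∃ x, b x ≠ 0) ∧ Bornology.IsBounded (Function.support b)

/-- `X` admits a Lipschitz bump function that is `C^1`-smooth on `X`. -/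
def C1Bump (X : Type) [NormedAddCommGroup X] [NormedSpace ℝ X] : Prop :=
  ∃ b : X → ℝ, ContDiff ℝ 1 b ∧ (∃ K, LipschitzWith K b) ∧ (∃ x, b x ≠ 0) ∧
    Bornology.IsBounded (Function.support b)

/-- `X` is an Asplund space: all separable linear subspaces have separable duals. -/
def Asplund (X : Type) [NormedAddCommGroup X] [NormedSpace ℝ X] : Prop :=
  ∀ F : Submodule ℝ X, TopologicalSpace.IsSeparable (F : Set X) →
    TopologicalSpace.SeparableSpace (F →L[ℝ] ℝ)

/-- All continuous maps of `X` into Banach spaces are uniform limits of `C^1`-smooth maps. -/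
def C1Approx (X : Type) [NormedAddCommGroup X] [NormedSpace ℝ X] : Prop :=
  ∀ (Z : Type) [NormedAddCommGroup Z] [NormedSpace ℝ Z] [CompleteSpace Z] (f : X → Z),
    Continuous f → ∀ ε : ℝ, 0 < ε → ∃ g : X → Z, ContDiff ℝ 1 g ∧ ∀ x, ‖f x - g x‖ < ε

section one

variable {X : Type} [NormedAddCommGroup X] [NormedSpace ℝ X]

lemma frg_iff_F [CompleteSpace X] : Frg X ↔ FBump X := by
  constructor
  · intro h
    obtain ⟨b, b1, -, b3, b4⟩ := frechet_of_frag h
    exact ⟨b, b1.differentiable (by norm_num), ⟨0, b3⟩, b4⟩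
  · rintro ⟨b, b1, b2, b3⟩
    exact bump_frag b1 b2 b3

lemma frg_iff_C [CompleteSpace X] : Frg X ↔ C1Bump X := by
  constructor
  · intro h
    obtain ⟨b, b1, b2, b3, b4⟩ := frechet_of_frag h
    exact ⟨b, b1, b2, ⟨0, b3⟩, b4⟩
  · rintro ⟨b, b1, -, b2, b3⟩
    exact bump_frag (b1.differentiable (by norm_num)) b2 b3

lemma frg_iff_A [CompleteSpace X] : Frg X ↔ Asplund X := by
  constructor
  · intro h
    exact Pool.Agent.Y436.TS.FBump.asp (frg_iff_F.1 h)
  · intro h
    exact asplund_frag h

lemma frg_iff_P [CompleteSpace X] : Frg X ↔ C1Approx X := by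
  constructor
  · intro h Z _ _ _ f hf ε hε
    exact approx_main h f hf hε
  · intro h
    obtain ⟨g, hg, hfg⟩ := h ℝ (fun x => min ‖x‖ 1) (continuous_norm.min continuous_const)
      (1 / 4) (by norm_num)
    have h0 : Real.smoothTransition (3 / 2 - 2 * g 0) = 1 := by
      apply Real.smoothTransition.one_of_one_le
      have h1 := hfg 0
      rw [norm_zero, min_eq_left zero_le_one, Real.norm_eq_abs, abs_lt] at h1
      linarith [h1.1]
    have h2 : ∀ x : X, 1 ≤ ‖x‖ → Real.smoothTransition (3 / 2 - 2 * g x) = 0 := by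
      intro x hx
      apply Real.smoothTransition.zero_of_nonpos
      have h1 := hfg x
      rw [min_eq_right hx, Real.norm_eq_abs, abs_lt] at h1
      linarith [h1.2]
    refine frg_iff_F.2 ⟨fun x => Real.smoothTransition (3 / 2 - 2 * g x), ?_, ⟨0, ?_⟩, ?_⟩
    · have h3 : ContDiff ℝ 1 (fun x => Real.smoothTransition (3 / 2 - 2 * g x)) :=
        Real.smoothTransition.contDiff.comp (contDiff_const.sub (contDiff_const.mul hg))
      exact h3.differentiable (by norm_num)
    · show Real.smoothTransition (3 / 2 - 2 * g 0) ≠ 0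
      rw [h0]
      exact one_ne_zero
    · refine (Metric.isBounded_ball (x := (0 : X)) (r := 1)).subset ?_
      intro x hx
      rw [mem_ball_zero_iff]
      by_contra hcon
      exact hx (h2 x (not_lt.1 hcon))

lemma frg_three [CompleteSpace X] (Y : Submodule ℝ X) [hYc : IsClosed (Y : Set X)] :
    Frg X ↔ Frg Y ∧ Frg (X ⧸ Y) := by
  have : CompleteSpace Y := hYc.completeSpace_coe
  constructor
  · intro h
    exact ⟨frg_iff_F.2 (Pool.Agent.Y436.TS.FBump.sub (frg_iff_F.1 h) Y),
      Pool.Agent.Y436.TS.FBump.quot (frg_iff_F.1 h) Y⟩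
  · rintro ⟨h1, h2⟩
    exact three_space_frag Y h1 h2

end one

/-- **Theorem.** Let `Y` be a closed subspace of a real Banach space `X`. The following are
equivalent:
(1) `X` admits a bump function that is Fréchet differentiable at each point;
(2) `Y` and `X ⧸ Y` admit bump functions that are Fréchet differentiable at each point;
(3) `X` admits a Lipschitz `C^1`-smooth bump function;
(4) `Y` and `X ⧸ Y` admit Lipschitz `C^1`-smooth bump functions;
(5) `X` is an Asplund space;
(6) `Y` and `X ⧸ Y` are Asplund spaces;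
(7) all continuous maps of `X` into Banach spaces are uniform limits of `C^1`-smooth maps;
(8) all continuous maps of `Y` and of `X ⧸ Y` into Banach spaces are uniform limits of
`C^1`-smooth maps. -/
theorem result (X : Type) [NormedAddCommGroup X] [NormedSpace ℝ X] [CompleteSpace X]
    (Y : Submodule ℝ X) [hYc : IsClosed (Y : Set X)] :
    List.TFAE [FBump X, FBump Y ∧ FBump (X ⧸ Y), C1Bump X, C1Bump Y ∧ C1Bump (X ⧸ Y),
      Asplund X, Asplund Y ∧ Asplund (X ⧸ Y), C1Approx X, C1Approx Y ∧ C1Approx (X ⧸ Y)] := by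
  have hYcs : CompleteSpace Y := hYc.completeSpace_coe
  have h3 := frg_three Y
  have e1 : FBump X ↔ Frg X := frg_iff_F.symm
  have e2 : FBump Y ∧ FBump (X ⧸ Y) ↔ Frg X := by
    rw [h3, ← frg_iff_F, ← frg_iff_F]
  have e3 : C1Bump X ↔ Frg X := frg_iff_C.symm
  have e4 : C1Bump Y ∧ C1Bump (X ⧸ Y) ↔ Frg X := by
    rw [h3, ← frg_iff_C, ← frg_iff_C]
  have e5 : Asplund X ↔ Frg X := frg_iff_A.symm
  have e6 : Asplund Y ∧ Asplund (X ⧸ Y) ↔ Frg X := by
    rw [h3, ← frg_iff_A, ← frg_iff_A]
  have e7 : C1Approx X ↔ Frg X := frg_iff_P.symm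
  have e8 : C1Approx Y ∧ C1Approx (X ⧸ Y) ↔ Frg X := by
    rw [h3, ← frg_iff_P, ← frg_iff_P]
  tfae_have 1 ↔ 2 := e1.trans e2.symm
  tfae_have 1 ↔ 3 := e1.trans e3.symm
  tfae_have 1 ↔ 4 := e1.trans e4.symm
  tfae_have 1 ↔ 5 := e1.trans e5.symm
  tfae_have 1 ↔ 6 := e1.trans e6.symm
  tfae_have 1 ↔ 7 := e1.trans e7.symm
  tfae_have 1 ↔ 8 := e1.trans e8.symm
  tfae_finish

end Pool.Agent.Results.MP_151be3_an.SmoothnessEquivalences
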